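import Pool.Agent.Results.MP_ac9862_nt.GolombGaps

/-!
# The maximal multiplicity of an almost Golomb sequence

For every `r ≥ 5` the largest multiplicity of a term in the almost Golomb sequence `a_r` of order `r`
is that of `r - 1`: `M(r) = N_r(r - 1)`. Moreover this number is `a_r(r) = G(r - 1)`, with `G`
Golomb's sequence.

The definitions and the lemmas on the sequences are those of
`Pool.Agent.Results.MP_ac9862_nt.GolombGaps` (helper310).
-/

set_option autoImplicit false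

namespace Pool.Agent.Results.MP_c02c06_co.PeakMultiplicity

open Pool.Agent.Results.MP_ac9862_nt.GolombGaps (cc cc_two cc_mono cc_psum psum psum_succ
  isAlmostGolomb_cc unique_cc occ_le occ_peak bdd cc_eq_golomb cc_le)

/-- `a(n) + a(n-1) + ⋯ + a(n-r+1)`; the convention `a(k) = 0` for `k ≤ 0` is encoded by `a 0 = 0`
and truncated subtraction. -/
def windowSum (a : ℕ → ℕ) (r n : ℕ) : ℕ := ∑ i ∈ Finset.range r, a (n - i)

/-- `(a(n))_{n ≥ 1}` is a nondecreasing sequence of positive integers with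
`a(a(n) + ⋯ + a(n-r+1)) = n` for all `n ≥ 1` (and `a(0) = 0`). -/
structure Admissible (r : ℕ) (a : ℕ → ℕ) : Prop where
  zero : a 0 = 0
  pos : ∀ n, 1 ≤ n → 1 ≤ a n
  mono : ∀ n, 1 ≤ n → a n ≤ a (n + 1)
  ident : ∀ n, 1 ≤ n → a (windowSum a r n) = n

/-- `a` is the almost Golomb sequence of order `r`: it is admissible and each term is as small as
possible, `a(n) ≤ b(n)` for every admissible sequence `b` that agrees with `a` before `n`. -/
def IsAlmostGolomb (r : ℕ) (a : ℕ → ℕ) : Prop :=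
  Admissible r a ∧ ∀ b, Admissible r b → ∀ n, (∀ i < n, b i = a i) → a n ≤ b n

/-- Golomb's sequence: positive, nondecreasing, and every `n ≥ 1` occurs exactly `G(n)` times. -/
def IsGolomb (G : ℕ → ℕ) : Prop :=
  (∀ n, 1 ≤ n → 1 ≤ G n) ∧ (∀ n, 1 ≤ n → G n ≤ G (n + 1)) ∧
    ∀ n, 1 ≤ n → {i : ℕ | 1 ≤ i ∧ G i = n}.ncard = G n

/-- The multiplicity `N(n) = #{i ≥ 1 : a(i) = n}`. -/
noncomputable def N (a : ℕ → ℕ) (n : ℕ) : ℕ := {i : ℕ | 1 ≤ i ∧ a i = n}.ncard

/-- The supremum `M` of the multiplicities `N(n)`, `n ≥ 1`. -/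
noncomputable def M (a : ℕ → ℕ) : ℕ := sSup {k : ℕ | ∃ n, 1 ≤ n ∧ k = N a n}

lemma adm_iff (r : ℕ) (a : ℕ → ℕ) :
    Admissible r a ↔ Pool.Agent.Results.MP_ac9862_nt.GolombGaps.Adm r a :=
  ⟨fun h => ⟨h.zero, h.pos, h.mono, h.ident⟩, fun h => ⟨h.zero, h.pos, h.mono, h.ident⟩⟩

lemma isAlmostGolomb_iff (r : ℕ) (a : ℕ → ℕ) : IsAlmostGolomb r a ↔
    Pool.Agent.Results.MP_ac9862_nt.GolombGaps.IsAlmostGolomb r a := by
  unfold IsAlmostGolomb Pool.Agent.Results.MP_ac9862_nt.GolombGaps.IsAlmostGolomb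
  simp only [adm_iff]

/-- **The maximal multiplicity.** For every `r ≥ 2` there is exactly one almost Golomb sequence of
order `r`. If `r ≥ 5`, then its multiplicities are bounded, their maximum is attained at `r - 1`,
`M(r) = N_r(r - 1)`, and this number is `a_r(r) = G(r - 1)`, with `G` Golomb's sequence. -/
theorem result : (∀ r, 2 ≤ r → ∃! a, IsAlmostGolomb r a) ∧
    (∀ r, 5 ≤ r → ∀ a, IsAlmostGolomb r a →
      BddAbove {k : ℕ | ∃ n, 1 ≤ n ∧ k = N a n} ∧ M a = N a (r - 1) ∧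
      (∀ n, 1 ≤ n → N a n ≤ N a (r - 1)) ∧ N a (r - 1) = a r ∧
      ∀ G, IsGolomb G → a r = G (r - 1)) := by
  refine ⟨fun r hr => ?_, fun r hr a ha => ?_⟩
  · simp only [isAlmostGolomb_iff]
    exact ⟨cc r, isAlmostGolomb_cc hr, fun b hb => unique_cc hr hb⟩
  · have hr2 : 2 ≤ r := by omega
    have hac : a = cc r := unique_cc hr2 ((isAlmostGolomb_iff r a).1 ha)
    subst hac
    have hpeak : N (cc r) (r - 1) = cc r r := occ_peak hr2 (by omega)
    -- `a(5) = 3`
    have h3 : 3 ≤ cc r r := by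
      have h1 := (Pool.Agent.Results.MP_ac9862_nt.GolombGaps.psum_three hr2).2.1
      have h2 := cc_mono r (show psum (cc r) r 3 ≤ r by omega)
      rwa [cc_psum hr2 (by norm_num)] at h2
    have hle : ∀ n, N (cc r) n ≤ N (cc r) (r - 1) := by
      intro n
      have h1 : N (cc r) n ≤ max (cc r r) 3 := occ_le hr2
      rw [hpeak]
      exact h1.trans (max_le le_rfl h3)
    have hb : BddAbove {k : ℕ | ∃ n, 1 ≤ n ∧ k = N (cc r) n} := by
      refine ⟨N (cc r) (r - 1), ?_⟩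
      rintro k ⟨n, -, rfl⟩
      exact hle n
    refine ⟨hb, le_antisymm ?_ ?_, fun n _ => hle n, hpeak, fun G hG => ?_⟩
    · refine csSup_le ⟨_, 1, le_rfl, rfl⟩ ?_
      rintro k ⟨n, -, rfl⟩
      exact hle n
    · exact le_csSup hb ⟨r - 1, by omega, rfl⟩
    · exact cc_eq_golomb hr2 hG r (by omega) le_rfl

end Pool.Agent.Results.MP_c02c06_co.PeakMultiplicity
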